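import Pool.Agent.helper61.PNB.ModG

/-!
# MP_ab5edb_an, Q1 : the answer is negative

There is a compact connected Kähler manifold `X` (of dimension 29, a projective bundle over
`P¹ × P¹ × P¹`) and a big class `θ` on it such that the envelope `V_θ` is unbounded on every
neighbourhood of some point `x` at which it is finite: the polar locus is strictly smaller than the
non-bounded locus.

All definitions (plurisubharmonic functions, closed real `(1,1)`-forms given by local potentials,
Kähler forms, big classes, `θ`-psh functions, the envelope `V_θ`) are in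
`Pool/Agent/helper61/PNB/Defs.lean`.
-/

open scoped ContDiff Manifold

theorem Pool.Agent.Results.MP_ab5edb_an.PolarNotNonBounded.result :
    ∃ (E : Type) (_ : NormedAddCommGroup E) (_ : NormedSpace ℂ E) (_ : FiniteDimensional ℂ E)
      (X : Type) (_ : TopologicalSpace X) (_ : T2Space X) (_ : CompactSpace X)
      (_ : ConnectedSpace X) (_ : ChartedSpace E X) (_ : IsManifold 𝓘(ℂ, E) ω X),
      (∃ κ : PNB.ClosedForm E X, κ.IsKahler) ∧
      ∃ θ : PNB.ClosedForm E X, θ.IsBig ∧
        ∃ x : X, x ∈ θ.nonBoundedLocus ∧ x ∉ θ.polarLocus :=
  PNB.negQ1
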